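import Pool.Agent.T6.H86.HessTrace
import Pool.Agent.T6.H86.HessLie

/-!
# Type C Hessenberg dot actions are not always reflection-subgroup positive

In type `C_3` (the group `Sp_6`) let `H` be the space of all matrices of `sp_6` whose lower left
`3 × 3` block has vanishing upper left `2 × 2` corner.  It is a Hessenberg space whose set of
reflections is given by `x_1 - x_2, x_1 - x_3, x_1 + x_3, x_2 - x_3, x_2 + x_3, 2x_3`.  The trace
of the central element `-1` on the degree two piece of the left quotient is negative, while every
coset character takes non-negative values, so `L_2(H)` is not a non-negative combination of the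
characters `π_R`.
-/

namespace Pool.Agent.Results.MP_513174_co.TypeCCounterexample

open Pool.Agent.T6.H86.Hess

/-- For `n = 3` and type `C` there is a Hessenberg space `H` such that the character `L_2(H)` of
the dot action on the degree two piece of the left quotient is not a combination of the characters
`π_R`, `R` a reflection subgroup, with non-negative integer coefficients. -/
theorem result : ∃ H : Submodule ℂ (Matrix (Fin 3 ⊕ Fin 3) (Fin 3 ⊕ Fin 3) ℂ),
    IsHessenbergSpace H ∧ ¬ IsReflectionPositive (leftChar (hessRoots H) 2) :=
  ⟨H0, H0_hess, by
    rw [hessRoots_H0]
    exact not_positive⟩

end Pool.Agent.Results.MP_513174_co.TypeCCounterexample
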